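import Pool.Agent.Lib.MP_4dd93e_co.Five

/-!
# Five edge lengths suffice for drawings of outerplanar graphs

Every finite outerplanar graph has a drawing (an injective map of the vertices to the plane such
that no vertex lies in the relative interior of an edge segment) with at most five different edge
lengths: the distance number of outerplanar graphs is at most `5`.

Outline. The universal outerplanar graph has vertices coded by integer sequences, and every
sequence of level vectors `T_0, T_1, ...` gives a drawing in which the edge vectors are `± T_k` and
`± (T_k + T_(k+1))`. Take `T_k = r ^ e_k * τ ^ m_k` with `e_k = 0` or `1`, `τ` a transcendental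
number of absolute value one and `r = τ ^ a + τ ^ (-a)`. The exponents come from a walk in `ℤ^4`
which is a block map of Keranen's word over four letters without abelian squares; its lack of
symmetric pairs keeps the vertices off the edges.
-/

set_option autoImplicit false

namespace Pool.Agent.Results.MP_4dd93e_co.FiveLengths

/-- `G` is outerplanar: the vertices can be placed on a circle (in the cyclic order given by the
values of `f`) in such a way that no two edges, drawn as chords, cross. -/
def Outerplanar {V : Type*} (G : SimpleGraph V) : Prop :=
  ∃ f : V → ℕ, Function.Injective f ∧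
    ∀ a b c d, G.Adj a b → G.Adj c d → ¬ (f a < f c ∧ f c < f b ∧ f b < f d)

/-- a drawing: different vertices go to different points of the plane, and no vertex lies in the
relative interior of an edge segment -/
def IsDrawing {V : Type*} (G : SimpleGraph V) (p : V → EuclideanSpace ℝ (Fin 2)) : Prop :=
  Function.Injective p ∧ ∀ u v w, G.Adj u v → p w ∉ openSegment ℝ (p u) (p v)

/-- the set of the Euclidean lengths of the edge segments -/
def edgeLengths {V : Type*} (G : SimpleGraph V) (p : V → EuclideanSpace ℝ (Fin 2)) : Set ℝ :=
  {d | ∃ u v, G.Adj u v ∧ d = dist (p u) (p v)}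

/-- the distance number: the minimum of the number of edge lengths over all drawings -/
noncomputable def dn {V : Type*} (G : SimpleGraph V) : ℕ∞ :=
  ⨅ (p : V → EuclideanSpace ℝ (Fin 2)) (_ : IsDrawing G p), (edgeLengths G p).encard

/-- Every finite outerplanar graph has distance number at most `5`. -/
theorem result : ∀ (V : Type) [Finite V] (G : SimpleGraph V), Outerplanar G → dn G ≤ 5 := by
  intro V _ G hG
  have := Fintype.ofFinite V
  obtain ⟨f, hf, hnc⟩ := hG
  obtain ⟨P, h1, h2, h3⟩ := Pool.Agent.Lib.MP_4dd93e_co.Fv.draw5 G f hf
    (fun a b c d hab hcd x y z => hnc a b c d hab hcd ⟨x, y, z⟩)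
  set L := Complex.orthonormalBasisOneI.repr with hL
  have hd : IsDrawing G (fun v => L (P v)) := by
    refine ⟨fun u v h => h1 (L.injective h), ?_⟩
    rintro u v w huv ⟨α, β, hα, hβ, hαβ, hw⟩
    refine h2 u v w huv ⟨α, β, hα, hβ, hαβ, L.injective ?_⟩
    rw [map_add, LinearIsometryEquiv.map_smul, LinearIsometryEquiv.map_smul]
    exact hw
  refine (iInf₂_le (fun v => L (P v)) hd).trans ?_
  unfold edgeLengths
  simp only [LinearIsometryEquiv.dist_map]
  exact h3

end Pool.Agent.Results.MP_4dd93e_co.FiveLengths
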