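import Pool.Agent.Lib.MP_4dd93e_co.Fan

/-!
# Two edge lengths suffice for degenerate drawings of outerplanar graphs

Every finite outerplanar graph has an injective map of its vertices to the plane for which the
edges have at most two different lengths, and there is an outerplanar graph which needs two: the
maximum of the degenerate distance number over all outerplanar graphs is `2`.
-/

set_option autoImplicit false

namespace Pool.Agent.Results.MP_4dd93e_co.TwoLengths

/-- `G` is outerplanar: the vertices can be placed on a circle (in the cyclic order given by the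
values of `f`) in such a way that no two edges, drawn as chords, cross. -/
def Outerplanar {V : Type*} (G : SimpleGraph V) : Prop :=
  ∃ f : V → ℕ, Function.Injective f ∧
    ∀ a b c d, G.Adj a b → G.Adj c d → ¬ (f a < f c ∧ f c < f b ∧ f b < f d)

/-- the set of the Euclidean lengths of the edge segments -/
def edgeLengths {V : Type*} (G : SimpleGraph V) (p : V → EuclideanSpace ℝ (Fin 2)) : Set ℝ :=
  {d | ∃ u v, G.Adj u v ∧ d = dist (p u) (p v)}

/-- the degenerate distance number: the minimum of the number of edge lengths over all injective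
maps of the vertices to the plane -/
noncomputable def ddn {V : Type*} (G : SimpleGraph V) : ℕ∞ :=
  ⨅ (p : V → EuclideanSpace ℝ (Fin 2)) (_ : Function.Injective p), (edgeLengths G p).encard

/-- Every finite outerplanar graph has degenerate distance number at most `2`, and the value `2` is
attained by an outerplanar graph with eight vertices. -/
theorem result :
    (∀ (V : Type) [Finite V] (G : SimpleGraph V), Outerplanar G → ddn G ≤ 2) ∧
      ∃ G : SimpleGraph (Fin 8), Outerplanar G ∧ ddn G = 2 := by
  have hup : ∀ (V : Type) [Finite V] (G : SimpleGraph V), Outerplanar G → ddn G ≤ 2 := by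
    intro V _ G hG
    have := Fintype.ofFinite V
    obtain ⟨f, hf, hnc⟩ := hG
    obtain ⟨P, h1, h2⟩ := Pool.Agent.Lib.MP_4dd93e_co.Lx.ddraw G f hf
      (fun a b c d hab hcd x y z => hnc a b c d hab hcd ⟨x, y, z⟩)
    set L := Complex.orthonormalBasisOneI.repr with hL
    refine (iInf₂_le (fun v => L (P v)) (fun u v h => h1 (L.injective h))).trans ?_
    unfold edgeLengths
    simp only [LinearIsometryEquiv.dist_map]
    exact h2
  refine ⟨hup, ?_⟩
  let G : SimpleGraph (Fin 8) :=
    { Adj := fun a b => a ≠ b ∧ (a.val = 0 ∨ b.val = 0 ∨ a.val + 1 = b.val ∨ b.val + 1 = a.val)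
      symm := ⟨fun a b h => ⟨h.1.symm, by rcases h.2 with h | h | h | h <;> simp [h]⟩⟩
      loopless := ⟨fun a h => h.1 rfl⟩ }
  have hG : Outerplanar G := by
    refine ⟨fun a => a.val, Fin.val_injective, ?_⟩
    rintro a b c d ⟨-, hab⟩ ⟨-, hcd⟩ ⟨h1, h2, h3⟩
    simp only at h1 h2 h3
    omega
  refine ⟨G, hG, le_antisymm (hup _ G hG) ?_⟩
  refine le_iInf₂ fun p hp => ?_
  by_contra hcon
  have h1 : (edgeLengths G p).encard ≤ 1 := by
    rw [not_le] at hcon
    exact Order.le_of_lt_succ (by rw [Order.succ_eq_add_one, one_add_one_eq_two]; exact hcon)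
  rw [Set.encard_le_one_iff] at h1
  set L := Complex.orthonormalBasisOneI.repr with hL
  have hd : ∀ i j : Fin 8, dist (L.symm (p i)) (L.symm (p j)) = dist (p i) (p j) :=
    fun i j => LinearIsometryEquiv.dist_map _ _ _
  have hall : ∀ i j : Fin 8, G.Adj i j → dist (p i) (p j) = dist (p 0) (p 1) := by
    intro i j hij
    exact h1 _ _ ⟨i, j, hij, rfl⟩ ⟨0, 1, ⟨by decide, Or.inl rfl⟩, rfl⟩
  refine Pool.Agent.Lib.MP_4dd93e_co.Lx.fan (fun i => L.symm (p i))
    (fun a b h => hp (L.symm.injective h)) (dist (p 0) (p 1)) ?_ ?_
  · intro i hi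
    simp only [hd]
    exact hall 0 i ⟨hi.symm, Or.inl rfl⟩
  · intro i j hi hj
    simp only [hd]
    refine hall i j ⟨?_, Or.inr (Or.inr (Or.inl hj.symm))⟩
    intro h
    rw [h] at hj
    omega

end Pool.Agent.Results.MP_4dd93e_co.TwoLengths
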